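import Pool.Agent.Q117.LF.Cnt

/-!
MP_77cbc6_nt (Cunningham chains of the first kind of exact length): the exact lengths of ALL the chains which start in a window of the size of Rankin's gaps can
be prescribed, for almost primes, with one term prime and another one a prime or a product of two large primes.
-/

set_option autoImplicit false

namespace Pool.Agent.Results.MP_77cbc6_nt.ExactLengthsInWindows

/-- the scale of Rankin -/
noncomputable def R (X : ℝ) : ℝ :=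
  Real.log X * Real.log (Real.log X) * Real.log (Real.log (Real.log (Real.log X))) / (Real.log (Real.log (Real.log X))) ^ 2

/-- all prime factors of `m` are `> z` (so `0` is not rough) -/
def Rough (z : ℝ) (m : ℤ) : Prop := ∀ p : ℕ, p.Prime → (p : ℤ) ∣ m → z < p

/-- at most two prime factors (with multiplicity), all `> z` -/
def AtMostTwo (z : ℝ) (m : ℤ) : Prop := m.natAbs.primeFactorsList.length ≤ 2 ∧ Rough z m

/-- the `i`-th term of the Cunningham sequence of the first kind that starts at `m` (`x ↦ 2 x + 1`) -/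
def term (i : ℕ) (m : ℤ) : ℤ := 2 ^ i * (m + 1) - 1

theorem term_zero (m : ℤ) : term 0 m = m := by simp [term]

theorem term_succ (i : ℕ) (m : ℤ) : term (i + 1) m = 2 * term i m + 1 := by
  unfold term
  ring

/-- the sequence that starts at `m` has exactly `l` terms without prime factors `≤ z` before the first term with a prime factor `≤ y` -/
def ExactLength (z y : ℝ) (l : ℕ) (m : ℤ) : Prop := (∀ i < l, Rough z (term i m)) ∧ ¬ Rough y (term l m)

/-- no prime divides one of the prescribed terms for every `n` -/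
def NoFixedDivisor (H : Finset ℤ) (len : ℤ → ℕ) : Prop :=
  ∀ p : ℕ, p.Prime → ∃ n : ℕ, ∀ s ∈ H, ∀ i < len s, ¬ (p : ℤ) ∣ term i (n + s)

theorem result : ∀ k L : ℕ, ∃ t : ℕ, 1 ≤ t ∧ ∃ c : ℝ, 0 < c ∧ ∃ X0 : ℝ, ∀ X : ℝ, X0 ≤ X →
    ∀ (H : Finset ℤ) (len : ℤ → ℕ), H.card ≤ k → (∀ s ∈ H, |(s : ℝ)| ≤ c * R X) → (∀ s, len s ≤ L) → (∀ s, s ∉ H → len s = 0) →
    NoFixedDivisor H len → ∀ s₁ ∈ H, ∀ i₁ < len s₁, ∀ s₂ ∈ H, ∀ i₂ < len s₂, ¬ (s₁ = s₂ ∧ i₁ = i₂) →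
    X ^ (99 / 100 : ℝ) ≤ ({n : ℕ | X < n ∧ (n : ℝ) ≤ 2 * X ∧ (term i₁ (n + s₁)).natAbs.Prime ∧
      AtMostTwo (X ^ (1 / 8 : ℝ)) (term i₂ (n + s₂)) ∧
      ∀ s : ℤ, |(s : ℝ)| ≤ c * R X → ExactLength (X ^ (1 / (t : ℝ))) (Real.log X) (len s) (n + s)}.ncard : ℝ) := by
  have key : ∀ (i : ℕ) (m : ℤ), 2 ^ i * m + (1 : ℤ) * (2 ^ i - 1) = term i m := by
    intro i m
    unfold term
    ring
  intro k L
  obtain ⟨t, ht, c, hc, X0, h⟩ := Pool.Agent.Q117.LF.t5 Pool.Agent.Q117.LF.famC (1 : ℤ) (by simp) k L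
  refine ⟨t, ht, c, hc, max X0 0, fun X hX H len h1 h2 h3 h4 h5 s₁ a₁ i₁ b₁ s₂ a₂ i₂ b₂ h6 => ?_⟩
  have hX0 : (0 : ℝ) ≤ X := (le_max_right _ _).trans hX
  have h5' : ∀ p : ℕ, p.Prime → ∃ n : ℕ, ∀ s ∈ H, ∀ i < len s, ¬ (p : ℤ) ∣ 2 ^ i * (n + s) + (1 : ℤ) * (2 ^ i - 1) := by
    intro p hp
    obtain ⟨n, hn⟩ := h5 p hp
    refine ⟨n, fun s hs i hi => ?_⟩
    rw [key]
    exact hn s hs i hi
  have h' := Pool.Agent.Q117.LF.cnt hX0 _ _ (h X ((le_max_left _ _).trans hX) H len h1 h2 h3 h4 h5' s₁ a₁ i₁ b₁ s₂ a₂ i₂ b₂ h6)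
  simp only [key] at h'
  exact h'

end Pool.Agent.Results.MP_77cbc6_nt.ExactLengthsInWindows
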