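import Pool.Agent.Q84.OT1

set_option autoImplicit false

/-!
# Linear equations in the times between consecutive isolated primes of Cunningham orbits

Let `D ≥ 2` and `e > -D`, `e ≠ 0` coprime to `D`; the orbits of `n ↦ D n + e` are the Cunningham
sequences of the first kind for `D = 2`, `e = 1` and of the second kind for `D = 2`, `e = -1`. A number `j`
is a recurring time of level `R` if for every `η > 0` and arbitrarily large `x` at least `x ^ (1 - η)`
primes `p ≤ x` satisfy: the term of the orbit of `p` at time `j` is the first prime of the orbit after `p`,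
none of the `R` terms after it is prime, and `p` is not one of the first `R` terms after a prime `q` in
the orbit of `q`. For `R ≥ 1` and the Cunningham sequences both primes start (and are) complete chains
of exact length one.

Let `r ≥ 3` and `c_1, ..., c_r` be nonzero integers. There is `M` such that for EVERY multiple `N` of `M`
there is `T` such that every solution of `c_1 x_1 + ... + c_r x_r = n` in natural numbers `x_i ≥ T`, with
`n` a multiple of `N`, lies within distance `T` of a solution in recurring times of level `R`. For instance
every large multiple of `N` is a sum of three recurring times, all of them within distance `T` of a third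
of it.

Proof: one half of the multiples of a highly divisible number, up to one per cent, in every long window
are recurring times (`Pool.Agent.Y862.transferH`, the starting file HalfOfIsolatedGaps), and such a
set solves all linear equations in three variables locally (`Pool.Agent.Q84.PG.solv_half`, behind
TernaryGaps of MP_70e905).
-/

namespace Pool.Agent.Results.MP_77cbc6_nt.LinearEquationsOfTimes

open Filter Finset Pool.Agent.Q84.PG Pool.Agent.Q84.OT

/-- **Every solution of a linear equation in `r ≥ 3` natural numbers, with a highly divisible right hand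
side, is close to a solution in recurring times.** -/
theorem result (D : ℕ) (e : ℤ) (hD : 2 ≤ D) (he0 : e ≠ 0) (he : -(D : ℤ) < e)
    (hcop : IsCoprime e (D : ℤ)) (R r : ℕ) (hr : 3 ≤ r) (c : Fin r → ℤ) (hc : ∀ i, c i ≠ 0) :
    ∃ M : ℕ, 0 < M ∧ ∀ N : ℕ, 0 < N → M ∣ N → ∃ T : ℕ,
      ∀ x : Fin r → ℕ, (∀ i, T ≤ x i) → (N : ℤ) ∣ ∑ i, c i * (x i : ℤ) →
      ∃ g : Fin r → ℕ, (∀ i, Time D e R (g i) ∧ |(g i : ℤ) - x i| ≤ T) ∧
        ∑ i, c i * (g i : ℤ) = ∑ i, c i * (x i : ℤ) := by
  obtain ⟨M0, hM0, h0⟩ := half D e hD he0 he hcop R (1 / 100) (by norm_num)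
  have hh : Half {g | Time D e R g} M0 := by
    intro N hN hd
    obtain ⟨L, hL⟩ := h0 N hN hd
    refine ⟨L, fun l hl u => ?_⟩
    have h3 := hL l hl u
    have h4 : ((49 * l : ℕ) : ℝ) ≤
        ((100 * (nwin {k | N * k ∈ {g | Time D e R g}} u l).card : ℕ) : ℝ) := by
      have h5 : (1 / 2 - 1 / 100 : ℝ) * l ≤
        ((nwin {k | N * k ∈ {g | Time D e R g}} u l).card : ℝ) := h3
      push_cast
      linarith
    exact_mod_cast h4
  obtain ⟨M, hM, h⟩ := solv_half hM0 hh r hr c hc
  refine ⟨M, hM, fun N hN hd => ?_⟩
  obtain ⟨T, hT⟩ := h N hN hd 0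
  exact ⟨T, fun x hx hdvd => hT x hx _ hdvd (by simp)⟩

end Pool.Agent.Results.MP_77cbc6_nt.LinearEquationsOfTimes
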