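import Pool.Agent.Q106.GMM.Aff
import Pool.Agent.Q106.GMM.ExFix
import Pool.Agent.Q120.GM.Exists

/-!
# Chains of exact length in the sieved models of the primes

`Q` is the level: the random set contains each `n` coprime to `Q` independently with
probability `min(1, (Q/φ(Q))/log n)`, and no other `n`. For `Q = 1` this is the model of Cramér.

`Ex S f l n`: the first `l` terms of the orbit of `n` under `f` lie in `S` and the next term does not, a chain of exact
length `l`. `TE S f n₀ l x` is the number of its starting points `n` with `n₀ ≤ n ≤ x`.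
The maps are `f(n) = a n + b`, `a ≥ 2`, started at `n ≥ 2|b| + 1`; Cunningham chains of the first kind: `2 n + 1`.

Almost surely, for all open maps at once, the number of the chains of exact length `l` is asymptotic to the expected
number, uniformly in all `l ≤ (1 - ε) log x / log log x`, and for `l ≥ (1 + ε) log x / log log x` there is none.
-/

set_option autoImplicit false

namespace Pool.Agent.Results.MP_77cbc6_nt.UniformExactChains

open MeasureTheory Filter Pool.Agent.Q120.GM Pool.Agent.Q106.GMM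
open Pool.Agent.Q120.AD (hl)
open scoped Topology

/-- The law for the map `f(n) = a n + b`. `2 |b| + 1` is the least starting point. -/
structure Law (Q : ℕ) (S : Set ℕ) (a : ℕ) (b : ℤ) : Prop where
  /-- Uniform asymptotics. -/
  uniform : ∀ ε δ : ℝ, 0 < ε → 0 < δ → ∀ᶠ x : ℕ in atTop, ∀ l : ℕ,
    (l : ℝ) ≤ (1 - ε) * (Real.log x / Real.log (Real.log x)) →
    |TE S (aff a b) (2 * b.natAbs + 1) l x - EX Q (aff a b) (2 * b.natAbs + 1) l x| ≤
      δ * EX Q (aff a b) (2 * b.natAbs + 1) l x
  /-- The expected numbers, and the numbers, are large: all these lengths occur. -/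
  big : ∀ ε : ℝ, 0 < ε → ε < 1 → ∀ᶠ x : ℕ in atTop, ∀ l : ℕ,
    (l : ℝ) ≤ (1 - ε) * (Real.log x / Real.log (Real.log x)) →
    (x : ℝ) ^ (ε / 4) ≤ EX Q (aff a b) (2 * b.natAbs + 1) l x ∧
    (x : ℝ) ^ (ε / 4) ≤ 2 * TE S (aff a b) (2 * b.natAbs + 1) l x
  /-- No longer chains. -/
  none : ∀ ε : ℝ, 0 < ε → ∀ᶠ x : ℕ in atTop, ∀ l : ℕ,
    (1 + ε) * (Real.log x / Real.log (Real.log x)) ≤ l → TE S (aff a b) (2 * b.natAbs + 1) l x = 0
  /-- Fixed length: the exact frequency. -/
  fixed : ∀ l : ℕ, 1 ≤ l → 0 < cE Q (aff a b) (2 * b.natAbs + 1) l ∧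
    Tendsto (fun x : ℕ => TE S (aff a b) (2 * b.natAbs + 1) l x / ((x : ℝ) / Real.log x ^ l)) atTop
      (𝓝 (cE Q (aff a b) (2 * b.natAbs + 1) l))

/-- **Chains of exact length in the models.** -/
theorem result : (∀ Q : ℕ, IsModel (prodMeasure (level Q)) (level Q) (trueSet (ι := ℕ))) ∧
    (∀ Q : ℕ, 1 ≤ Q → Open Q 2 1 ∧ Open Q 2 (-1)) ∧
    ∀ (Ω : Type) (_ : MeasurableSpace Ω) (μ : Measure Ω) (_ : IsProbabilityMeasure μ) (A : Ω → Set ℕ) (Q : ℕ),
      1 ≤ Q → IsModel μ (level Q) A → ∀ᵐ ω ∂μ, ∀ (a : ℕ) (b : ℤ), 2 ≤ a → Open Q a b → Law Q (A ω) a b := by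
  refine ⟨fun Q => isModel (level Q) (level_nonneg Q) (level_le_one Q), fun Q hQ => ⟨open_first hQ, open_second⟩, ?_⟩
  intro Ω _ μ _ A Q hQ hA
  have h1 : ∀ᵐ ω ∂μ, ∀ ab : ℕ × ℤ, 2 ≤ ab.1 → Open Q ab.1 ab.2 → Law Q (A ω) ab.1 ab.2 := by
    rw [ae_all_iff]
    rintro ⟨a, b⟩
    by_cases h : 2 ≤ a ∧ Open Q a b
    swap
    · filter_upwards with ω h1 h2
      exact absurd ⟨h1, h2⟩ h
    obtain ⟨ha, r, hr⟩ := h
    have hf := step_aff ha b
    have hP : PerC Q (aff a b) (2 * b.natAbs + 1) := aff_per ha b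
    have hmono := aff_mono a b
    have hg : ∀ n, 2 * b.natAbs + 1 ≤ n → n % Q = r % Q → ∀ i, ((aff a b)^[i] n).Coprime Q :=
      fun n hn => hr n (by omega)
    have hu : ∀ᵐ ω ∂μ, ∀ j : ℕ, ∀ᶠ x : ℕ in atTop, ∀ l : ℕ,
        (l : ℝ) ≤ (1 - 1 / ((j : ℝ) + 2)) * (Real.log x / Real.log (Real.log x)) →
        |TE (A ω) (aff a b) (2 * b.natAbs + 1) l x - EX Q (aff a b) (2 * b.natAbs + 1) l x| ≤
          1 / ((j : ℝ) + 2) * EX Q (aff a b) (2 * b.natAbs + 1) l x := by
      rw [ae_all_iff]
      intro j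
      have hj : (0 : ℝ) < 1 / ((j : ℝ) + 2) := by positivity
      have hj1 : 1 / ((j : ℝ) + 2) < 1 := by
        rw [div_lt_one (by positivity)]
        have : (0 : ℝ) ≤ j := Nat.cast_nonneg j
        linarith
      exact exact_one hA hQ hf hmono hP hg hj hj1 hj hj1
    filter_upwards [hu, chain_upper hA hQ hf (show (0 : ℝ) < 1 by norm_num)] with ω hω hup _ _
    have hrat : ∀ᶠ x : ℕ in atTop, 0 ≤ Real.log x / Real.log (Real.log x) := by
      filter_upwards [hl.eventually_ge_atTop 0, hll.eventually_ge_atTop 0] with x e1 e2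
      positivity
    have hunif : ∀ ε δ : ℝ, 0 < ε → 0 < δ → ∀ᶠ x : ℕ in atTop, ∀ l : ℕ,
        (l : ℝ) ≤ (1 - ε) * (Real.log x / Real.log (Real.log x)) →
        |TE (A ω) (aff a b) (2 * b.natAbs + 1) l x - EX Q (aff a b) (2 * b.natAbs + 1) l x| ≤
          δ * EX Q (aff a b) (2 * b.natAbs + 1) l x := by
      intro ε δ hε hδ
      obtain ⟨j, hj⟩ := exists_nat_one_div_lt (lt_min hε hδ)
      have hj2 : 1 / ((j : ℝ) + 2) < min ε δ :=
        lt_of_le_of_lt (one_div_le_one_div_of_le (by positivity) (by linarith)) hj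
      filter_upwards [hω j, hrat] with x e1 e2 l hlx
      have e3 : 0 ≤ EX Q (aff a b) (2 * b.natAbs + 1) l x := Finset.sum_nonneg (fun n _ => gE_nonneg Q _ l n)
      refine (e1 l (hlx.trans (mul_le_mul_of_nonneg_right ?_ e2))).trans (mul_le_mul_of_nonneg_right ?_ e3)
      · have := min_le_left ε δ
        linarith
      · have := min_le_right ε δ
        linarith
    refine ⟨hunif, ?_, ?_, ?_⟩
    · intro ε hε hε1
      filter_upwards [EX_big hA hQ hf hg hε hε1, hunif ε (1 / 2) hε (by norm_num)] with x e1 e2 l hlx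
      have e3 := e1 l hlx
      have e4 := (abs_le.1 (e2 l hlx)).1
      exact ⟨e3, by linarith⟩
    · intro ε hε
      -- log log x - log qq - 1 ≥ loglog x / (1 + ε/2)
      filter_upwards [hup, hll.eventually_ge_atTop ((1 + ε) * (2 + |Real.log (qq Q)|) / ε + 2 + |Real.log (qq Q)|), hl.eventually_gt_atTop 0]
        with x e1 e2 e3 l hlx
      classical
      unfold TE
      rw [Nat.cast_eq_zero, Finset.card_eq_zero, Finset.filter_eq_empty_iff]
      intro n hn hex
      rw [Finset.mem_filter, Finset.mem_range] at hn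
      have h4 := e1 n l hn.2 (by omega) hex.1
      unfold Pool.Agent.Q120.GM.GG at h4
      obtain ⟨c, hc⟩ : ∃ c, c = |Real.log (qq Q)| := ⟨_, rfl⟩
      rw [← hc] at e2
      have hc0 : 0 ≤ c := by rw [hc]; exact abs_nonneg _
      have hc1 : -c ≤ -Real.log (qq Q) := by rw [hc]; exact neg_le_neg (le_abs_self _)
      obtain ⟨y, hy⟩ : ∃ y, y = Real.log (Real.log (x : ℝ)) := ⟨_, rfl⟩
      obtain ⟨L, hL⟩ : ∃ L, L = Real.log (x : ℝ) := ⟨_, rfl⟩
      rw [← hL] at e3 h4 hlx
      rw [← hL] at hy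
      rw [← hy] at h4 hlx
      have e2' : (1 + ε) * (2 + c) / ε + 2 + c ≤ y := by rw [hy, hL]; exact e2
      have h5 : 0 ≤ (1 + ε) * (2 + c) / ε := by positivity
      have hy0 : 0 < y := by linarith
      have hz : 0 < y + (-Real.log (qq Q) - 1) := by linarith
      have h6 : (1 + ε) * (L / y) ≤ L / (y + (-Real.log (qq Q) - 1)) := hlx.trans h4
      have h7 : (1 + ε) * (y + (-Real.log (qq Q) - 1)) ≤ y := by
        have h8 : (1 + ε) * (L / y) * (y * (y + (-Real.log (qq Q) - 1))) ≤
            L / (y + (-Real.log (qq Q) - 1)) * (y * (y + (-Real.log (qq Q) - 1))) :=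
          mul_le_mul_of_nonneg_right h6 (by positivity)
        have h9 : (1 + ε) * (L / y) * (y * (y + (-Real.log (qq Q) - 1))) = L * ((1 + ε) * (y + (-Real.log (qq Q) - 1))) := by
          field_simp
        have h10 : L / (y + (-Real.log (qq Q) - 1)) * (y * (y + (-Real.log (qq Q) - 1))) = L * y := by
          field_simp
        rw [h9, h10] at h8
        exact le_of_mul_le_mul_left h8 e3
      have h8 : (1 + ε) * (2 + c) ≤ ε * (y - 2 - c) := by
        have h9 : (1 + ε) * (2 + c) / ε ≤ y - 2 - c := by linarith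
        rw [div_le_iff₀ hε] at h9
        linarith
      nlinarith
    · intro l hl1
      refine ⟨cE_pos hQ hg l, ?_⟩
      have h2 := ex_fix hQ hf hP hl1
      obtain ⟨s, hs⟩ : ∃ s, s = cE Q (aff a b) (2 * b.natAbs + 1) l := ⟨_, rfl⟩
      rw [← hs] at h2 ⊢
      have hlim : Tendsto (fun x : ℕ => (1 - 1 / 2) * (Real.log (x : ℝ) / Real.log (Real.log x))) atTop atTop := by
        refine Tendsto.const_mul_atTop (by norm_num) ?_
        have h3 : Tendsto (fun y : ℝ => y / Real.log y) atTop atTop := by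
          have h4 := Real.isLittleO_log_id_atTop.tendsto_div_nhds_zero
          have h5 : Tendsto (fun y : ℝ => Real.log y / y) atTop (𝓝[>] 0) := by
            rw [tendsto_nhdsWithin_iff]
            refine ⟨h4, ?_⟩
            filter_upwards [eventually_gt_atTop 1] with y hy
            have := Real.log_pos hy
            exact Set.mem_Ioi.2 (by positivity)
          refine h5.inv_tendsto_nhdsGT_zero.congr (fun y => ?_)
          simp
        exact h3.comp hl
      have h3 : Tendsto (fun x : ℕ => (TE (A ω) (aff a b) (2 * b.natAbs + 1) l x - EX Q (aff a b) (2 * b.natAbs + 1) l x) /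
          ((x : ℝ) / Real.log x ^ l)) atTop (𝓝 0) := by
        rw [Metric.tendsto_atTop']
        intro η hη
        have hs0 : 0 < s := by rw [hs]; exact cE_pos hQ hg l
        have hδ : 0 < η / (2 * (s + 1)) := by positivity
        obtain ⟨N, hN⟩ := eventually_atTop.1 ((hunif (1 / 2) (η / (2 * (s + 1))) (by norm_num) hδ).and
          ((hlim.eventually_ge_atTop (l : ℝ)).and ((h2.eventually_lt_const (show s < s + 1 by linarith)).and
          ((hl.eventually_gt_atTop 0).and (eventually_ge_atTop 1)))))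
        refine ⟨N, fun x hx => ?_⟩
        obtain ⟨e1, e2, e3, e4, e5⟩ := hN x hx.le
        have hx0 : (0 : ℝ) < x := by exact_mod_cast e5
        have hpos : 0 < (x : ℝ) / Real.log x ^ l := by positivity
        rw [Real.dist_eq, sub_zero, abs_div, abs_of_pos hpos]
        calc |TE (A ω) (aff a b) (2 * b.natAbs + 1) l x - EX Q (aff a b) (2 * b.natAbs + 1) l x| / ((x : ℝ) / Real.log x ^ l)
            ≤ η / (2 * (s + 1)) * EX Q (aff a b) (2 * b.natAbs + 1) l x / ((x : ℝ) / Real.log x ^ l) :=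
              div_le_div_of_nonneg_right (e1 l e2) hpos.le
          _ = η / (2 * (s + 1)) * (EX Q (aff a b) (2 * b.natAbs + 1) l x / ((x : ℝ) / Real.log x ^ l)) := by ring
          _ ≤ η / (2 * (s + 1)) * (s + 1) := mul_le_mul_of_nonneg_left e3.le hδ.le
          _ < η := by
            field_simp
            linarith
      have h4 := h3.add h2
      rw [zero_add] at h4
      refine h4.congr (fun x => ?_)
      ring
  filter_upwards [h1] with ω hω a b
  exact hω (a, b)

end Pool.Agent.Results.MP_77cbc6_nt.UniformExactChains
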